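import Mathlib

/-!
# Continuity of Jones's set function `T` and indecomposability

Let `S` be a continuum (compact connected Hausdorff space) for which Jones's set function `T` is
continuous, and suppose `T(p)` has nonempty interior for some point `p`. Then `S` is
indecomposable.

Sketch. Continuity of `T` at the sets `S \ int W`, `W` a subcontinuum, shows that each point of
`int W` has a continuum neighbourhood inside `int W`. Hence `y ∈ T(x)` is a closed preorder, and a
point outside `int A` (`A` a subcontinuum) has `T(p) ∩ int A = ∅`. Let `E` be the closed set of the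
points `x` for which `T(x)` is minimal. Let `K = T(p)` and `y ∈ int K`. If `p ∉ T(y)`, choose a closed
set `F` which is a neighbourhood of `T(y) ∪ E` and does not contain `p`. The set `C` of the `z ∈ K`
with `T(z) ⊆ F` is closed; it is connected, because a proper clopen piece `B` of it would be touched
by the continuum `T(z)`, `z ∈ K`, in a clopen set of points `z`. So `C` is a continuum neighbourhood
of `y` missing `p`, although `y ∈ T(p)`. Hence `T(y) = K` for all `y ∈ int K`, so for all `y` in its
closure, and if `K ≠ S` this contradicts `T(y) ∩ int K = ∅` for the points of the boundary.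
-/

set_option autoImplicit false

open Set Topology TopologicalSpace

namespace Pool.Agent.Results.MP_3a3191_gt.ContinuousT

universe u

variable {S : Type u} [TopologicalSpace S]

/-- `W` is a subcontinuum: a (nonempty) compact connected subset. -/
def IsSubcontinuum (W : Set S) : Prop := IsCompact W ∧ IsConnected W

/-- Jones's set function
`T(A) = S \ {p : there is a subcontinuum W with p ∈ int W and W ∩ A = ∅}`. -/
def jonesT (A : Set S) : Set S :=
  univ \ {p | ∃ W : Set S, IsSubcontinuum W ∧ p ∈ interior W ∧ W ∩ A = ∅}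

theorem mem_jonesT {A : Set S} {p : S} :
    p ∈ jonesT A ↔ ∀ W : Set S, IsSubcontinuum W → p ∈ interior W → (W ∩ A).Nonempty := by
  simp only [jonesT, mem_sdiff, mem_univ, true_and, mem_ofPred_eq, not_exists, not_and,
    nonempty_iff_ne_empty, ne_eq]

theorem subset_jonesT (A : Set S) : A ⊆ jonesT A := fun p hp =>
  mem_jonesT.2 fun _ _ hpW => ⟨p, interior_subset hpW, hp⟩

theorem isClosed_jonesT (A : Set S) : IsClosed (jonesT A) := by
  rw [← isOpen_compl_iff]
  rw [isOpen_iff_forall_mem_open]
  intro p hp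
  rw [mem_compl_iff, mem_jonesT] at hp
  push Not at hp
  obtain ⟨W, hW, hpW, he⟩ := hp
  refine ⟨interior W, fun q hq => ?_, isOpen_interior, hpW⟩
  rw [mem_compl_iff, mem_jonesT]
  push Not
  exact ⟨W, hW, hq, he⟩

variable [CompactSpace S]

/-- The set function `T` as a map of the hyperspace of nonempty closed (that is, compact) subsets
of the compact Hausdorff space `S`. -/
def T (A : NonemptyCompacts S) : NonemptyCompacts S where
  carrier := jonesT (A : Set S)
  isCompact' := (isClosed_jonesT _).isCompact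
  nonempty' := A.nonempty.mono (subset_jonesT _)

variable (S) in
/-- `S` is indecomposable: it is not the union of two proper subcontinua. -/
def Indecomposable : Prop :=
  ¬ ∃ A B : Set S, IsSubcontinuum A ∧ IsSubcontinuum B ∧ A ≠ univ ∧ B ≠ univ ∧ A ∪ B = univ

omit [CompactSpace S] in
/-- The value at a point. -/
theorem mem_t_iff {x y : S} :
    y ∈ jonesT {x} ↔ ∀ W : Set S, IsSubcontinuum W → y ∈ interior W → x ∈ W := by
  rw [mem_jonesT]
  refine forall₃_congr fun W _ _ => ?_
  rw [inter_singleton_nonempty]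

section cont

variable (hT : Continuous (T : NonemptyCompacts S → NonemptyCompacts S))

include hT

theorem usc_open {U : Set S} (hU : IsOpen U) : IsOpen {z : S | jonesT {z} ⊆ U} := by
  have h := (NonemptyCompacts.isOpen_subsets_of_isOpen hU).preimage
    (hT.comp (NonemptyCompacts.continuous_singleton (α := S)))
  exact h

theorem lsc_open {U : Set S} (hU : IsOpen U) : IsOpen {z : S | (jonesT {z} ∩ U).Nonempty} := by
  have h := (NonemptyCompacts.isOpen_inter_nonempty_of_isOpen hU).preimage
    (hT.comp (NonemptyCompacts.continuous_singleton (α := S)))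
  exact h

theorem lsc_closed {F : Set S} (hF : IsClosed F) : IsClosed {z : S | jonesT {z} ⊆ F} := by
  have h := (NonemptyCompacts.isClosed_subsets_of_isClosed hF).preimage
    (hT.comp (NonemptyCompacts.continuous_singleton (α := S)))
  exact h

theorem usc_closed {F : Set S} (hF : IsClosed F) :
    IsClosed {z : S | (jonesT {z} ∩ F).Nonempty} := by
  have h := (NonemptyCompacts.isClosed_inter_nonempty_of_isClosed hF).preimage
    (hT.comp (NonemptyCompacts.continuous_singleton (α := S)))
  exact h

/-- Every point of the interior of a subcontinuum has a continuum neighbourhood in it. -/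
theorem exists_smaller {W : Set S} (hW : IsSubcontinuum W) {x : S} (hx : x ∈ interior W) :
    ∃ W' : Set S, IsSubcontinuum W' ∧ x ∈ interior W' ∧ W' ⊆ interior W := by
  by_cases hne : (interior W)ᶜ.Nonempty
  · let D : NonemptyCompacts S := ⟨⟨(interior W)ᶜ, isOpen_interior.isClosed_compl.isCompact⟩, hne⟩
    have hcl : IsClosed {A : NonemptyCompacts S | (T A : Set S) ⊆ (interior W)ᶜ} :=
      (NonemptyCompacts.isClosed_subsets_of_isClosed isOpen_interior.isClosed_compl).preimage hT
    have hfin : {K : NonemptyCompacts S | (K : Set S).Finite ∧ (K : Set S) ⊆ Wᶜ} ⊆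
        {A : NonemptyCompacts S | (T A : Set S) ⊆ (interior W)ᶜ} := by
      rintro K ⟨-, hK⟩ y hy hyW
      obtain ⟨z, hz1, hz2⟩ := mem_jonesT.1 hy W hW hyW
      exact hK hz2 hz1
    have hD : D ∈ closure {K : NonemptyCompacts S | (K : Set S).Finite ∧ (K : Set S) ⊆ Wᶜ} := by
      rw [NonemptyCompacts.closure_finite_subsets]
      change (interior W)ᶜ ⊆ closure Wᶜ
      rw [closure_compl]
    have h1 : (T D : Set S) ⊆ (interior W)ᶜ := closure_minimal hfin hcl hD
    have h2 : x ∉ jonesT ((interior W)ᶜ) := fun h => h1 h hx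
    rw [mem_jonesT] at h2
    push Not at h2
    obtain ⟨W', hW', hxW', he⟩ := h2
    refine ⟨W', hW', hxW', fun y hy => ?_⟩
    by_contra hc
    have : y ∈ W' ∩ (interior W)ᶜ := ⟨hy, hc⟩
    rw [he] at this
    exact this
  · refine ⟨W, hW, hx, fun y _ => ?_⟩
    by_contra hc
    exact hne ⟨y, hc⟩

/-- `T` is idempotent on points. -/
theorem t_trans {x y : S} (hy : y ∈ jonesT {x}) : jonesT {y} ⊆ jonesT {x} := by
  intro r hr
  rw [mem_t_iff]
  intro W hW hrW
  obtain ⟨W', hW', hrW', hsub⟩ := exists_smaller hT hW hrW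
  exact mem_t_iff.1 hy W hW (hsub (mem_t_iff.1 hr W' hW' hrW'))

theorem disj_interior {A : Set S} (hA : IsSubcontinuum A) {p : S} (hp : p ∉ interior A) {r : S}
    (hr : r ∈ jonesT {p}) : r ∉ interior A := by
  intro hrA
  obtain ⟨W', hW', hrW', hsub⟩ := exists_smaller hT hA hrA
  exact hp (hsub (mem_t_iff.1 hr W' hW' hrW'))

end cont

section connected

variable [T2Space S] [ConnectedSpace S]

/-- The sets `T(x)` are connected. -/
theorem isPreconnected_t (x : S) : IsPreconnected (jonesT {x}) := by
  -- it suffices to separate into `x` side and the other side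
  suffices key : ∀ u v : Set S, IsClosed u → IsClosed v → jonesT {x} ⊆ u ∪ v → Disjoint u v →
      x ∈ u → jonesT {x} ⊆ u by
    rw [isPreconnected_iff_subset_of_fully_disjoint_closed (isClosed_jonesT _)]
    intro u v hu hv hsub hdis
    rcases hsub (subset_jonesT {x} rfl) with hx | hx
    · exact Or.inl (key u v hu hv hsub hdis hx)
    · exact Or.inr (key v u hv hu (by rwa [union_comm]) hdis.symm hx)
  intro u v hu hv hsub hdis hxu b hbT
  by_contra hbu
  have hbv : b ∈ v := (hsub hbT).resolve_left hbu
  -- a neighbourhood `U` of the `v` side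
  have hB : IsClosed (jonesT {x} ∩ v) := (isClosed_jonesT _).inter hv
  have hBsub : jonesT {x} ∩ v ⊆ uᶜ := fun y hy hyu => (Set.disjoint_left.1 hdis hyu) hy.2
  obtain ⟨U, hU, hBU, hUcl⟩ := normal_exists_closure_subset hB hu.isOpen_compl hBsub
  have hbU : b ∈ U := hBU ⟨hbT, hbv⟩
  have hfr : ∀ z ∈ frontier U, ∃ W : Set S, IsSubcontinuum W ∧ z ∈ interior W ∧ x ∉ W := by
    intro z hz
    have hzT : z ∉ jonesT {x} := by
      intro hzT
      rcases hsub hzT with h | h
      · exact hUcl (frontier_subset_closure hz) h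
      · have : z ∈ U := hBU ⟨hzT, h⟩
        rw [hU.frontier_eq] at hz
        exact hz.2 this
    rw [mem_t_iff] at hzT
    push Not at hzT
    exact hzT
  choose! W hW using hfr
  obtain ⟨t, ht, hcov⟩ := (isClosed_frontier (s := U)).isCompact.elim_nhds_subcover
    (fun z => interior (W z)) (fun z hz => isOpen_interior.mem_nhds (hW z hz).2.1)
  set Q : Set S := closure U ∪ ⋃ z ∈ t, W z with hQ
  have hxQ : x ∉ Q := by
    rintro (h | h)
    · exact hUcl h hxu
    · simp only [mem_iUnion, exists_prop] at h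
      obtain ⟨z, hz, hxz⟩ := h
      exact (hW z (ht z hz)).2.2 hxz
  have hWQ : ∀ z ∈ t, W z ⊆ Q := fun z hz y hy =>
    Or.inr (mem_biUnion (show z ∈ (t : Set S) from hz) hy)
  have hUQ : U ⊆ Q := fun y hy => Or.inl (subset_closure hy)
  have hQc : IsClosed Q := isClosed_closure.union
    (t.finite_toSet.isClosed_biUnion fun z hz => (hW z (ht z hz)).1.1.isClosed)
  have hopen : ∀ D : Set S, IsClosed (Q \ D) → IsOpen (U \ (Q \ D)) := fun D hD => hU.sdiff hD
  -- each nonempty clopen part of `Q` contains one of the `W z`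
  have hkey : ∀ D : Set S, D ⊆ Q → IsClosed D → IsClosed (Q \ D) → D.Nonempty →
      ∃ z ∈ t, W z ⊆ D := by
    intro D hDQ hD hQD hne
    by_contra hcon
    push Not at hcon
    have hout : ∀ z ∈ t, W z ⊆ Q \ D := by
      intro z hz
      have hpre := (hW z (ht z hz)).1.2.isPreconnected
      rw [isPreconnected_iff_subset_of_disjoint_closed] at hpre
      rcases hpre D (Q \ D) hD hQD (by
        intro y hy
        by_cases hyD : y ∈ D
        · exact Or.inl hyD
        · exact Or.inr ⟨hWQ z hz hy, hyD⟩) (by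
        ext y; simp only [mem_inter_iff, mem_sdiff, mem_empty_iff_false, iff_false]; tauto) with h | h
      · exact absurd h (hcon z hz)
      · exact h
    have hDU : D ⊆ U := by
      intro y hy
      rcases hDQ hy with h | h
      · by_contra hyU
        have hyf : y ∈ frontier U := by rw [hU.frontier_eq]; exact ⟨h, hyU⟩
        have := hcov hyf
        simp only [mem_iUnion, exists_prop] at this
        obtain ⟨z, hz, hyz⟩ := this
        exact (hout z hz (interior_subset hyz)).2 hy
      · simp only [mem_iUnion, exists_prop] at h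
        obtain ⟨z, hz, hyz⟩ := h
        exact absurd hy (hout z hz hyz).2
    have hDo : IsOpen D := by
      have : D = U \ (Q \ D) := by
        ext y
        constructor
        · intro hy
          exact ⟨hDU hy, fun h => h.2 hy⟩
        · rintro ⟨hyU, hy⟩
          by_contra hyD
          exact hy ⟨hUQ hyU, hyD⟩
      rw [this]
      exact hopen D hQD
    rcases isClopen_iff.1 ⟨hD, hDo⟩ with h | h
    · rw [h] at hne; exact Set.not_nonempty_empty hne
    · exact hxQ (hDQ (by rw [h]; trivial))
  -- a minimal clopen part containing `b` is connected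
  classical
  have hmin : ∀ n : ℕ, ∀ D : Set S, D ⊆ Q → IsClosed D → IsClosed (Q \ D) → b ∈ D →
      (t.filter (fun z => W z ⊆ D)).card = n →
      ∃ D' : Set S, D' ⊆ Q ∧ IsClosed D' ∧ IsClosed (Q \ D') ∧ b ∈ D' ∧ IsPreconnected D' := by
    intro n
    induction n using Nat.strong_induction_on with
    | _ n ih =>
      intro D hDQ hD hQD hbD hn
      by_cases hpre : IsPreconnected D
      · exact ⟨D, hDQ, hD, hQD, hbD, hpre⟩
      rw [isPreconnected_iff_subset_of_fully_disjoint_closed hD] at hpre
      push Not at hpre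
      obtain ⟨a, c, ha, hc, hac, hdisj, hna, hnc⟩ := hpre
      -- general step
      have step : ∀ a c : Set S, IsClosed a → IsClosed c → D ⊆ a ∪ c → Disjoint a c →
          ¬ D ⊆ a → b ∈ a → ∃ D' : Set S, D' ⊆ Q ∧ IsClosed D' ∧ IsClosed (Q \ D') ∧ b ∈ D' ∧
            IsPreconnected D' := by
        intro a c ha hc hac hdisj hna hba
        have e1 : Q \ (D ∩ a) = (Q \ D) ∪ (D ∩ c) := by
          ext y
          simp only [mem_sdiff, mem_inter_iff, mem_union]
          constructor
          · rintro ⟨h1, h2⟩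
            by_cases hyD : y ∈ D
            · right
              refine ⟨hyD, (hac hyD).resolve_left fun h => h2 ⟨hyD, h⟩⟩
            · exact Or.inl ⟨h1, hyD⟩
          · rintro (⟨h1, h2⟩ | ⟨h1, h2⟩)
            · exact ⟨h1, fun h => h2 h.1⟩
            · exact ⟨hDQ h1, fun h => (Set.disjoint_left.1 hdisj h.2) h2⟩
        have e2 : Q \ (D ∩ c) = (Q \ D) ∪ (D ∩ a) := by
          ext y
          simp only [mem_sdiff, mem_inter_iff, mem_union]
          constructor
          · rintro ⟨h1, h2⟩
            by_cases hyD : y ∈ D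
            · right
              refine ⟨hyD, (hac hyD).resolve_right fun h => h2 ⟨hyD, h⟩⟩
            · exact Or.inl ⟨h1, hyD⟩
          · rintro (⟨h1, h2⟩ | ⟨h1, h2⟩)
            · exact ⟨h1, fun h => h2 h.1⟩
            · exact ⟨hDQ h1, fun h => (Set.disjoint_left.1 hdisj h2) h.2⟩
        obtain ⟨z, hz, hzc⟩ := hkey (D ∩ c) (inter_subset_left.trans hDQ) (hD.inter hc)
          (by rw [e2]; exact hQD.union (hD.inter ha)) (by
            rw [not_subset] at hna
            obtain ⟨y, hyD, hya⟩ := hna
            exact ⟨y, hyD, (hac hyD).resolve_left hya⟩)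
        refine ih _ ?_ (D ∩ a) (inter_subset_left.trans hDQ) (hD.inter ha)
          (by rw [e1]; exact hQD.union (hD.inter hc)) ⟨hbD, hba⟩ rfl
        rw [← hn]
        apply Finset.card_lt_card
        rw [Finset.ssubset_iff_of_subset]
        · refine ⟨z, ?_, ?_⟩
          · rw [Finset.mem_filter]
            exact ⟨hz, hzc.trans inter_subset_left⟩
          · rw [Finset.mem_filter]
            rintro ⟨-, h⟩
            obtain ⟨y, hy⟩ := (hW z (ht z hz)).1.2.nonempty
            exact (Set.disjoint_left.1 hdisj (h hy).2) (hzc hy).2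
        · intro w hw
          rw [Finset.mem_filter] at hw ⊢
          exact ⟨hw.1, hw.2.trans inter_subset_left⟩
      rcases hac hbD with hba | hbc
      · exact step a c ha hc hac hdisj hna hba
      · exact step c a hc ha (by rwa [union_comm]) hdisj.symm hnc hbc
  obtain ⟨D, hDQ, hD, hQD, hbD, hpre⟩ := hmin _ Q subset_rfl hQc (by simp) (hUQ hbU) rfl
  have hbint : b ∈ interior D := by
    refine mem_interior.2 ⟨U \ (Q \ D), ?_, hopen D hQD, hbU, fun h => h.2 hbD⟩
    rintro y ⟨hyU, hy⟩
    by_contra hyD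
    exact hy ⟨hUQ hyU, hyD⟩
  exact hxQ (hDQ (mem_t_iff.1 hbT D ⟨hD.isCompact, ⟨b, hbD⟩, hpre⟩ hbint))

theorem isSubcontinuum_t (x : S) : IsSubcontinuum (jonesT {x}) :=
  ⟨(isClosed_jonesT _).isCompact, ⟨x, subset_jonesT {x} rfl⟩, isPreconnected_t x⟩

variable (hT : Continuous (T : NonemptyCompacts S → NonemptyCompacts S))

variable (S) in
/-- The points with minimal `T(x)`. -/
def Mn : Set S := {m | ∀ y ∈ jonesT {m}, m ∈ jonesT {y}}

include hT

omit [ConnectedSpace S] [T2Space S] in
theorem exists_min (x : S) : ∃ m ∈ jonesT {x}, m ∈ Mn S := by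
  have hz := zorn_superset {s : Set S | ∃ y ∈ jonesT {x}, s = jonesT {y}} (by
    intro c hc hchain
    rcases c.eq_empty_or_nonempty with rfl | hne
    · exact ⟨jonesT {x}, ⟨x, subset_jonesT {x} rfl, rfl⟩, fun s hs => absurd hs (notMem_empty s)⟩
    have hn : (⋂₀ c).Nonempty := by
      have : Nonempty c := hne.to_subtype
      rw [sInter_eq_iInter]
      apply IsCompact.nonempty_iInter_of_directed_nonempty_isCompact_isClosed
      · rintro ⟨s, hs⟩ ⟨s', hs'⟩
        rcases hchain.total hs hs' with h | h
        · exact ⟨⟨s, hs⟩, subset_rfl, h⟩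
        · exact ⟨⟨s', hs'⟩, h, subset_rfl⟩
      · rintro ⟨s, hs⟩
        obtain ⟨y, -, rfl⟩ := hc hs
        exact ⟨y, subset_jonesT {y} rfl⟩
      · rintro ⟨s, hs⟩
        obtain ⟨y, -, rfl⟩ := hc hs
        exact (isClosed_jonesT _).isCompact
      · rintro ⟨s, hs⟩
        obtain ⟨y, -, rfl⟩ := hc hs
        exact isClosed_jonesT _
    obtain ⟨y, hy⟩ := hn
    refine ⟨jonesT {y}, ⟨y, ?_, rfl⟩, ?_⟩
    · obtain ⟨s, hs⟩ := hne
      obtain ⟨w, hw, rfl⟩ := hc hs
      exact t_trans hT hw (hy _ hs)
    · intro s hs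
      obtain ⟨w, hw, rfl⟩ := hc hs
      exact t_trans hT (hy _ hs))
  obtain ⟨_, ⟨m, hm, rfl⟩, hmin⟩ := hz
  refine ⟨m, hm, fun y hy => ?_⟩
  have h1 : jonesT {y} ⊆ jonesT {m} := t_trans hT hy
  have h2 := hmin ⟨y, t_trans hT hm hy, rfl⟩ h1
  exact h2 (subset_jonesT {m} rfl)

omit [ConnectedSpace S] in
theorem isClosed_Mn : IsClosed (Mn S) := by
  rw [← closure_subset_iff_isClosed]
  intro e he y hy
  rw [mem_t_iff]
  intro W hW heW
  by_contra hyW
  have hO : IsOpen {z : S | (jonesT {z} ∩ Wᶜ).Nonempty} := lsc_open hT hW.1.isClosed.isOpen_compl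
  obtain ⟨e', ⟨he'W, y', hy', hy'W⟩, he'⟩ := mem_closure_iff.1 he _ (isOpen_interior.inter hO)
    ⟨heW, y, hy, hyW⟩
  exact hy'W (mem_t_iff.1 (he' y' hy') W hW he'W)

/-- The key step: `T(y) = T(p)` for all `y` in the interior of `T(p)`. -/
theorem t_eq_of_mem_interior {p y : S} (hy : y ∈ interior (jonesT {p})) :
    jonesT {y} = jonesT {p} := by
  have hyK : y ∈ jonesT {p} := interior_subset hy
  refine Subset.antisymm (t_trans hT hyK) ?_
  by_contra hcon
  have hpy : p ∉ jonesT {y} := fun h => hcon (t_trans hT h)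
  have hpE : p ∉ Mn S := fun h => hpy (h y hyK)
  have hZ : IsClosed (jonesT {y} ∪ Mn S) := (isClosed_jonesT _).union (isClosed_Mn hT)
  have hpZ : p ∉ jonesT {y} ∪ Mn S := fun h => h.elim hpy hpE
  obtain ⟨N, hN, hNcl, hNsub⟩ :=
    exists_mem_nhds_isClosed_subset (hZ.isOpen_compl.mem_nhds hpZ)
  -- `G0 ⊆ F`
  have hpF : p ∉ (interior N)ᶜ := fun h => h (mem_interior_iff_mem_nhds.2 hN)
  have hF : IsClosed (interior N)ᶜ := isOpen_interior.isClosed_compl
  have hG0 : IsOpen Nᶜ := hNcl.isOpen_compl
  have hG0F : Nᶜ ⊆ (interior N)ᶜ := compl_subset_compl.2 interior_subset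
  have hZG : jonesT {y} ∪ Mn S ⊆ Nᶜ := fun z hz hzN => hNsub hzN hz
  set F : Set S := (interior N)ᶜ with hFdef
  set G : Set S := {z : S | jonesT {z} ⊆ Nᶜ} with hGdef
  have hGo : IsOpen G := usc_open hT hG0
  have hMn : ∀ e ∈ Mn S, jonesT {e} ⊆ Mn S := by
    intro e he z hz w hw
    have h1 : jonesT {z} = jonesT {e} := Subset.antisymm (t_trans hT hz) (t_trans hT (he z hz))
    rw [h1] at hw
    exact t_trans hT (he w hw) hz
  have hEG : Mn S ⊆ G := fun e he => (hMn e he).trans (subset_union_right.trans hZG)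
  set C : Set S := {z : S | z ∈ jonesT {p} ∧ jonesT {z} ⊆ F} with hCdef
  have hCc : IsClosed C := (isClosed_jonesT _).inter (lsc_closed hT hF)
  have hdown : ∀ z ∈ C, jonesT {z} ⊆ C := fun z hz w hw =>
    ⟨t_trans hT hz.1 hw, (t_trans hT hw).trans hz.2⟩
  have hpC : p ∉ C := fun h => hpF (h.2 (subset_jonesT {p} rfl))
  have hyC : y ∈ interior C := by
    refine mem_interior.2 ⟨interior (jonesT {p}) ∩ G, ?_, isOpen_interior.inter hGo, hy, ?_⟩
    · rintro z ⟨hz1, hz2⟩
      exact ⟨interior_subset hz1, hz2.trans hG0F⟩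
    · exact subset_union_left.trans hZG
  have hCpre : IsPreconnected C := by
    rw [isPreconnected_iff_subset_of_fully_disjoint_closed hCc]
    intro u v hu hv hsub hdis
    by_contra hcon2
    push Not at hcon2
    obtain ⟨h1, h2⟩ := hcon2
    rw [not_subset] at h1 h2
    obtain ⟨a, haC, hau⟩ := h1
    obtain ⟨b, hbC, hbv⟩ := h2
    have hav : a ∈ v := (hsub haC).resolve_left hau
    have hbu : b ∈ u := (hsub hbC).resolve_right hbv
    have hside : ∀ z ∈ C, jonesT {z} ⊆ u ∨ jonesT {z} ⊆ v := by
      intro z hz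
      have := isPreconnected_t z
      rw [isPreconnected_iff_subset_of_fully_disjoint_closed (isClosed_jonesT _)] at this
      exact this u v hu hv ((hdown z hz).trans hsub) hdis
    have hsu : ∀ z ∈ C, z ∈ u → jonesT {z} ⊆ u := by
      intro z hz hzu
      rcases hside z hz with h | h
      · exact h
      · exact absurd (h (subset_jonesT {z} rfl)) (Set.disjoint_left.1 hdis hzu)
    have hsv : ∀ z ∈ C, z ∈ v → jonesT {z} ⊆ v := by
      intro z hz hzv
      rcases hside z hz with h | h
      · exact absurd hzv (Set.disjoint_left.1 hdis (h (subset_jonesT {z} rfl)))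
      · exact h
    have hX2 : IsClosed {z : S | (jonesT {z} ∩ (C ∩ u)).Nonempty} := usc_closed hT (hCc.inter hu)
    have hX1 : IsOpen {z : S | (jonesT {z} ∩ (G \ v)).Nonempty} := lsc_open hT (hGo.sdiff hv)
    have h21 : {z : S | (jonesT {z} ∩ (C ∩ u)).Nonempty} ⊆
        {z : S | (jonesT {z} ∩ (G \ v)).Nonempty} := by
      rintro z ⟨w, hwz, hwC, hwu⟩
      obtain ⟨e, he1, he2⟩ := exists_min hT w
      exact ⟨e, t_trans hT hwz he1, hEG he2, Set.disjoint_left.1 hdis (hsu w hwC hwu he1)⟩
    have h12 : ∀ z ∈ jonesT {p}, z ∈ {z : S | (jonesT {z} ∩ (G \ v)).Nonempty} →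
        z ∈ {z : S | (jonesT {z} ∩ (C ∩ u)).Nonempty} := by
      rintro z hz ⟨w, hwz, hwG, hwv⟩
      have hwC : w ∈ C := ⟨t_trans hT hz hwz, hwG.trans hG0F⟩
      exact ⟨w, hwz, hwC, (hsub hwC).resolve_right hwv⟩
    have hb2 : b ∈ {z : S | (jonesT {z} ∩ (C ∩ u)).Nonempty} :=
      ⟨b, subset_jonesT {b} rfl, hbC, hbu⟩
    have hb1 := h21 hb2
    have ha2 : a ∉ {z : S | (jonesT {z} ∩ (C ∩ u)).Nonempty} := by
      rintro ⟨w, hwa, -, hwu⟩
      exact Set.disjoint_left.1 hdis hwu (hsv a haC hav hwa)
    obtain ⟨z, hzK, hz1, hz2⟩ := isPreconnected_t p _ _ hX1 hX2.isOpen_compl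
      (fun z _ => by
        by_cases h : z ∈ {z : S | (jonesT {z} ∩ (C ∩ u)).Nonempty}
        · exact Or.inl (h21 h)
        · exact Or.inr h) ⟨b, hbC.1, hb1⟩ ⟨a, haC.1, ha2⟩
    exact hz2 (h12 z hzK hz1)
  exact hpC (mem_t_iff.1 hyK C ⟨hCc.isCompact, ⟨y, interior_subset hyC⟩, hCpre⟩ hyC)

/-- If `T(p)` has interior points, then `T(y) = S` for all points `y`. -/
theorem t_eq_univ {p : S} (hp : (interior (jonesT {p})).Nonempty) (y : S) :
    jonesT {y} = univ := by
  have hK : jonesT {p} = univ := by
    by_contra hne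
    have hcl : ∀ z ∈ closure (interior (jonesT {p})), jonesT {p} ⊆ jonesT {z} := by
      intro z hz k hk
      have h1 : IsClosed {z : S | (jonesT {z} ∩ {k}).Nonempty} := usc_closed hT isClosed_singleton
      have h2 : interior (jonesT {p}) ⊆ {z : S | (jonesT {z} ∩ {k}).Nonempty} := by
        intro w hw
        refine ⟨k, ?_, rfl⟩
        rw [t_eq_of_mem_interior hT hw]
        exact hk
      obtain ⟨w, hw1, hw2⟩ := closure_minimal h2 h1 hz
      rw [mem_singleton_iff] at hw2
      rwa [hw2] at hw1
    have hex : ∃ z ∈ closure (interior (jonesT {p})), z ∉ interior (jonesT {p}) := by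
      by_contra hc
      push Not at hc
      have hclo : IsClosed (interior (jonesT {p})) := closure_subset_iff_isClosed.1 hc
      rcases isClopen_iff.1 ⟨hclo, isOpen_interior⟩ with h | h
      · rw [h] at hp; exact Set.not_nonempty_empty hp
      · exact hne (eq_univ_of_univ_subset (h ▸ interior_subset))
    obtain ⟨z, hz1, hz2⟩ := hex
    obtain ⟨r, hr⟩ := hp
    exact disj_interior hT (isSubcontinuum_t p) hz2 (hcl z hz1 (interior_subset hr)) hr
  rw [← hK]
  refine t_eq_of_mem_interior hT ?_
  rw [hK, interior_univ]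
  trivial

end connected

/-- **Affirmative answer to Q1.** Let `S` be a continuum for which Jones's set function `T`, as a map
of the hyperspace of nonempty closed subsets with the Vietoris topology, is continuous. If
`T(p)` has nonempty interior for some point `p`, then `S` is indecomposable. -/
theorem result (S : Type u) [TopologicalSpace S] [CompactSpace S] [T2Space S] [ConnectedSpace S]
    (hT : Continuous (T : NonemptyCompacts S → NonemptyCompacts S)) (p : S)
    (hp : (interior (jonesT {p})).Nonempty) : Indecomposable S := by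
  rintro ⟨A, B, hA, hB, hAne, hBne, hAB⟩
  obtain ⟨x, hx⟩ := (ne_univ_iff_exists_notMem A).1 hAne
  obtain ⟨y, hy⟩ := (ne_univ_iff_exists_notMem B).1 hBne
  have hyA : y ∈ interior A := by
    refine mem_interior.2 ⟨Bᶜ, fun z hz => ?_, hB.1.isClosed.isOpen_compl, hy⟩
    have : z ∈ A ∪ B := by rw [hAB]; trivial
    exact this.resolve_right hz
  have h : y ∈ jonesT {x} := by rw [t_eq_univ hT hp x]; trivial
  exact hx (mem_t_iff.1 h A hA hyA)

end Pool.Agent.Results.MP_3a3191_gt.ContinuousT
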